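import Pool.Agent.U627.QC.Main

/-!
# An acylindrical action of a hyperbolic group which is dominated by no quasi-convex splitting

Definitions: `Pool.Agent.U627.QC.Main` (`Hyperbolic`, `Acylindrical`, `NonElementary`, `QuasiConvex`,
`QCSplitting`, `Dominates`), `Pool.Agent.U627.QC.Grow` (`GeodSeg`, `QConv`),
`Pool.Agent.Helper270.Tree` (`TreeAct`, `IsLine`, `IsAxis`), `Pool.Agent.H322R3.HypDefs` (`wlen`,
`IsHyperbolic`).
-/

set_option autoImplicit false

namespace Pool.Agent.Results.MP_172f05_al.NoQuasiConvexDomination

open Pool.Agent.Helper270.Tree Pool.Agent.U627.QC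

/-- There are a Gromov hyperbolic group `G` and a non-elementary acylindrical action of `G` on a tree
`T` (by automorphisms, without inversions) such that no action of `G` on a tree `T'` with
quasi-convex edge stabilisers dominates the action on `T`, even if the surjective equivariant graph
morphisms `T' → T` are allowed to collapse edges. -/
theorem result : ∃ (G : Type) (_ : Group G) (V : Type) (_ : MulAction G V) (T : SimpleGraph V),
    Hyperbolic G ∧ TreeAct G T ∧ Acylindrical G T ∧ NonElementary G T ∧
      ∀ (V' : Type) (_ : MulAction G V') (T' : SimpleGraph V'), TreeAct G T' →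
        Dominates G T T' → ¬ QCSplitting G T' :=
  main_thm

end Pool.Agent.Results.MP_172f05_al.NoQuasiConvexDomination
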